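import Mathlib

/-!
# MP_5180ba - counting the points of a set of reals with a grid
-/

namespace MP5180ba

open MeasureTheory Filter
open scoped ENNReal Topology

/-- grid points -/
noncomputable def gp (n k : ℕ) : ℝ := -(n : ℝ) + k / 2 ^ n

/-- number of cells -/
def gn (n : ℕ) : ℕ := 2 * n * 2 ^ n

theorem gp_mono (n : ℕ) : Monotone (gp n) := by
  intro a b h
  unfold gp
  have : (a : ℝ) ≤ b := by exact_mod_cast h
  gcongr

open Classical in
/-- number of cells of the grid that meet `Z` -/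
noncomputable def X (n : ℕ) (Z : Set ℝ) : ℝ≥0∞ :=
  ∑ k ∈ Finset.range (gn n), if (Z ∩ Set.Ico (gp n k) (gp n (k + 1))).Nonempty then 1 else 0

theorem X_le (n : ℕ) (Z : Set ℝ) : X n Z ≤ (Z.encard : ℝ≥0∞) := by
  classical
  set K := (Finset.range (gn n)).filter fun k => (Z ∩ Set.Ico (gp n k) (gp n (k + 1))).Nonempty with hK
  have h1 : X n Z = ((K.card : ℕ) : ℝ≥0∞) := by
    unfold X
    rw [hK, Finset.card_filter]
    push_cast
    rfl
  rw [h1]
  have hex : ∀ k, ∃ z, k ∈ K → z ∈ Z ∧ z ∈ Set.Ico (gp n k) (gp n (k + 1)) := by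
    intro k
    by_cases hk : k ∈ K
    · obtain ⟨z, hz1, hz2⟩ := (Finset.mem_filter.1 hk).2
      exact ⟨z, fun _ => ⟨hz1, hz2⟩⟩
    · exact ⟨0, fun h => absurd h hk⟩
  choose z hz using hex
  have hinj : Set.InjOn z K := by
    have key : ∀ k l, k ∈ K → l ∈ K → k < l → z k < z l := by
      intro k l hk hl hkl
      have h2 := (hz k hk).2.2
      have h3 := (hz l hl).2.1
      have h4 := gp_mono n (Nat.succ_le_of_lt hkl)
      exact h2.trans_le (h4.trans h3)
    intro k hk l hl hkl
    rcases lt_trichotomy k l with h | h | h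
    · exact absurd hkl (key k l hk hl h).ne
    · exact h
    · exact absurd hkl (key l k hl hk h).ne'
  have h2 : ((K : Set ℕ).encard) ≤ Z.encard := by
    rw [← hinj.encard_image]
    apply Set.encard_le_encard
    rintro _ ⟨k, hk, rfl⟩
    exact (hz k hk).1
  rw [Set.encard_coe_eq_coe_finsetCard] at h2
  have h3 : ((K.card : ℕ∞) : ℝ≥0∞) ≤ (Z.encard : ℝ≥0∞) := ENat.toENNReal_le.2 h2
  simpa using h3

theorem card_le_X {n : ℕ} {Z : Set ℝ} {W : Finset ℝ} (hW : ∀ w ∈ W, w ∈ Z)
    (h1 : ∀ w ∈ W, -(n : ℝ) ≤ w ∧ w < n) (h2 : ∀ w ∈ W, ∀ w' ∈ W, w ≠ w' → 1 / 2 ^ n ≤ |w - w'|) :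
    ((W.card : ℕ) : ℝ≥0∞) ≤ X n Z := by
  classical
  set K := (Finset.range (gn n)).filter fun k => (Z ∩ Set.Ico (gp n k) (gp n (k + 1))).Nonempty with hK
  have h0 : X n Z = ((K.card : ℕ) : ℝ≥0∞) := by
    unfold X
    rw [hK, Finset.card_filter]
    push_cast
    rfl
  rw [h0]
  have hp : (0 : ℝ) < 2 ^ n := by positivity
  set idx : ℝ → ℕ := fun w => ⌊(w + n) * 2 ^ n⌋₊ with hidx
  have hI : ∀ w ∈ W, w ∈ Set.Ico (gp n (idx w)) (gp n (idx w + 1)) := by
    intro w hw
    have hw1 := (h1 w hw).1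
    have h3 : 0 ≤ (w + n) * 2 ^ n := mul_nonneg (by linarith) hp.le
    have h4 := Nat.floor_le h3
    have h5 := Nat.lt_floor_add_one ((w + n) * 2 ^ n)
    unfold gp
    constructor
    · have : ((idx w : ℕ) : ℝ) / 2 ^ n ≤ w + n := by
        rw [div_le_iff₀ hp]; exact h4
      linarith
    · have : w + n < ((idx w + 1 : ℕ) : ℝ) / 2 ^ n := by
        rw [lt_div_iff₀ hp]; push_cast; exact h5
      linarith
  have hle : W.card ≤ K.card := by
    apply Finset.card_le_card_of_injOn idx
    · intro w hw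
      simp only [hK, Finset.coe_filter, Finset.mem_range, Set.mem_ofPred_eq]
      refine ⟨?_, ⟨w, hW w hw, hI w hw⟩⟩
      have h3 := (hI w hw).1
      have h4 := (h1 w hw).2
      unfold gp at h3
      have h5 : ((idx w : ℕ) : ℝ) / 2 ^ n < 2 * n := by linarith
      rw [div_lt_iff₀ hp] at h5
      have h6 : ((idx w : ℕ) : ℝ) < ((gn n : ℕ) : ℝ) := by
        unfold gn
        push_cast
        exact h5
      exact_mod_cast h6
    · intro w hw w' hw' hww
      by_contra hne
      have h3 := h2 w hw w' hw' hne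
      have h4 := hI w hw
      have h5 := hI w' hw'
      rw [hww] at h4
      have h6 : gp n (idx w' + 1) = gp n (idx w') + 1 / 2 ^ n := by
        unfold gp
        push_cast
        ring
      rw [h6] at h4 h5
      have h7 : |w - w'| < 1 / 2 ^ n := by
        rw [abs_lt]
        constructor
        · linarith [h4.1, h5.2]
        · linarith [h4.2, h5.1]
      linarith
  exact_mod_cast hle

theorem eventually_card_le {Z : Set ℝ} {W : Finset ℝ} (hW : ∀ w ∈ W, w ∈ Z) :
    ∀ᶠ n in atTop, ((W.card : ℕ) : ℝ≥0∞) ≤ X n Z := by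
  have h1 : ∀ᶠ n : ℕ in atTop, ∀ w ∈ W, -(n : ℝ) ≤ w ∧ w < n := by
    rw [eventually_all_finset]
    intro w _
    obtain ⟨N, hN⟩ := exists_nat_gt |w|
    filter_upwards [eventually_ge_atTop N] with n hn
    have h2 : (N : ℝ) ≤ n := by exact_mod_cast hn
    have h3 := abs_lt.1 (hN.trans_le h2)
    exact ⟨h3.1.le, h3.2⟩
  have h2 : ∀ᶠ n : ℕ in atTop, ∀ w ∈ W, ∀ w' ∈ W, w ≠ w' → 1 / 2 ^ n ≤ |w - w'| := by
    rw [eventually_all_finset]
    intro w _
    rw [eventually_all_finset]
    intro w' _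
    by_cases hne : w = w'
    · exact Eventually.of_forall fun n h => absurd hne h
    · have hpos : 0 < |w - w'| := abs_pos.2 (sub_ne_zero.2 hne)
      have ht : Tendsto (fun n : ℕ => 1 / (2 : ℝ) ^ n) atTop (𝓝 0) := by
        have := tendsto_pow_atTop_nhds_zero_of_lt_one (r := (1 / 2 : ℝ)) (by norm_num) (by norm_num)
        refine this.congr fun n => ?_
        rw [one_div, one_div, inv_pow]
      filter_upwards [ht.eventually (gt_mem_nhds hpos)] with n hn _
      exact hn.le
  filter_upwards [h1, h2] with n h3 h4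
  exact card_le_X hW h3 h4

theorem le_liminf (Z : Set ℝ) : (Z.encard : ℝ≥0∞) ≤ liminf (fun n => X n Z) atTop := by
  rcases Z.finite_or_infinite with hf | hi
  · obtain ⟨W, hW⟩ := hf.exists_finset_coe
    have h1 : (Z.encard : ℝ≥0∞) = ((W.card : ℕ) : ℝ≥0∞) := by
      rw [← hW, Set.encard_coe_eq_coe_finsetCard]
      simp
    rw [h1]
    apply le_liminf_of_le
    · isBoundedDefault
    · apply eventually_card_le
      intro w hw
      rw [← hW]
      exact hw
  · have h1 : ∀ r : ℕ, (r : ℝ≥0∞) ≤ liminf (fun n => X n Z) atTop := by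
      intro r
      obtain ⟨W, hW, hr⟩ := hi.exists_subset_card_eq r
      rw [← hr]
      apply le_liminf_of_le
      · isBoundedDefault
      · apply eventually_card_le
        intro w hw
        exact hW hw
    have h2 : liminf (fun n => X n Z) atTop = ⊤ := by
      rw [eq_top_iff, ← ENNReal.iSup_natCast]
      exact iSup_le h1
    rw [h2]
    exact le_top

theorem encard_eq_liminf (Z : Set ℝ) : (Z.encard : ℝ≥0∞) = liminf (fun n => X n Z) atTop := by
  apply le_antisymm (le_liminf Z)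
  apply (liminf_le_of_le (f := atTop) (u := fun n => X n Z))
  intro b hb
  obtain ⟨n, hn⟩ := hb.exists
  exact hn.trans (X_le n Z)

end MP5180ba
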