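import Pool.Agent.Lib_MP_5180ba.Var
import Pool.Agent.Lib_MP_5180ba.Count

/-!
# MP_5180ba - the expected number of real roots of `∑ c_i f_i^2`
-/

namespace MP5180ba

open Polynomial MeasureTheory Filter
open scoped ENNReal Topology

variable {s : ℕ}

/-- `∑ c_i f_i ^ 2` -/
noncomputable def sq (f : Fin s → ℝ[X]) (c : Fin s → ℝ) : ℝ[X] := ∑ i, C (c i) * f i ^ 2

theorem eval_sq (f : Fin s → ℝ[X]) (c : Fin s → ℝ) (t : ℝ) :
    (sq f c).eval t = ∑ i, c i * (f i).eval t ^ 2 := by
  unfold sq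
  rw [eval_finsetSum]
  apply Finset.sum_congr rfl
  intro i _
  simp

/-- the real zeros -/
def Zs (f : Fin s → ℝ[X]) (c : Fin s → ℝ) : Set ℝ := {t | (sq f c).eval t = 0}

/-! ### measurability -/

theorem isClosed_hit (f : Fin s → ℝ[X]) (a b : ℝ) :
    IsClosed {c : Fin s → ℝ | (Zs f c ∩ Set.Icc a b).Nonempty} := by
  have h1 : IsClosed {p : Set.Icc a b × (Fin s → ℝ) | ∑ i, p.2 i * (f i).eval (p.1 : ℝ) ^ 2 = 0} := by
    apply isClosed_eq _ continuous_const
    apply continuous_finsetSum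
    intro i _
    have h2 : Continuous fun p : Set.Icc a b × (Fin s → ℝ) => (f i).eval (p.1 : ℝ) :=
      (f i).continuous.comp (continuous_subtype_val.comp continuous_fst)
    exact ((continuous_apply i).comp continuous_snd).mul (h2.pow 2)
  have h2 := isClosedMap_snd_of_compactSpace (X := Set.Icc a b) (Y := Fin s → ℝ) _ h1
  convert h2 using 1
  ext c
  simp only [Set.mem_ofPred_eq, Set.mem_image, Prod.exists, exists_eq_right]
  constructor
  · rintro ⟨t, ht1, ht2⟩
    refine ⟨⟨t, ht2⟩, ?_⟩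
    have := ht1
    unfold Zs at this
    rw [Set.mem_ofPred_eq, eval_sq] at this
    exact this
  · rintro ⟨⟨t, ht2⟩, ht1⟩
    refine ⟨t, ?_, ht2⟩
    unfold Zs
    rw [Set.mem_ofPred_eq, eval_sq]
    exact ht1

theorem measurableSet_hit (f : Fin s → ℝ[X]) (a b : ℝ) :
    MeasurableSet {c : Fin s → ℝ | (Zs f c ∩ Set.Ico a b).Nonempty} := by
  have h : {c : Fin s → ℝ | (Zs f c ∩ Set.Ico a b).Nonempty} =
      ⋃ m : ℕ, {c : Fin s → ℝ | (Zs f c ∩ Set.Icc a (b - 1 / (m + 1))).Nonempty} := by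
    ext c
    simp only [Set.mem_ofPred_eq, Set.mem_iUnion]
    constructor
    · rintro ⟨t, ht, hat, htb⟩
      obtain ⟨m, hm⟩ := exists_nat_one_div_lt (sub_pos.2 htb)
      exact ⟨m, t, ht, hat, by linarith⟩
    · rintro ⟨m, t, ht, hat, htb⟩
      have : (0 : ℝ) < 1 / (m + 1) := by positivity
      exact ⟨t, ht, hat, by linarith⟩
  rw [h]
  exact MeasurableSet.iUnion fun m => (isClosed_hit f a _).measurableSet

theorem measurable_encard (f : Fin s → ℝ[X]) :
    Measurable fun c : Fin s → ℝ => ((Zs f c).encard : ℝ≥0∞) := by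
  have h : (fun c : Fin s → ℝ => ((Zs f c).encard : ℝ≥0∞)) =
      fun c => liminf (fun n => X n (Zs f c)) atTop := by
    funext c
    exact encard_eq_liminf _
  rw [h]
  apply Measurable.liminf
  intro n
  unfold X
  apply Finset.measurable_sum
  intro k _
  exact Measurable.ite (measurableSet_hit f _ _) measurable_const measurable_const

/-! ### slabs -/

theorem slab {n : ℕ} (p : Fin (n + 1) → ℝ) (i : Fin (n + 1)) (hi : 0 < p i) (δ : ℝ) :
    volume {c : Fin (n + 1) → ℝ | c ∈ Set.Icc (-1) 1 ∧ |∑ j, c j * p j| ≤ δ} ≤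
      2 ^ n * ENNReal.ofReal (2 * δ / p i) := by
  set A := {c : Fin (n + 1) → ℝ | c ∈ Set.Icc (-1) 1 ∧ |∑ j, c j * p j| ≤ δ} with hA
  have hAm : MeasurableSet A := by
    have hm0 : Measurable fun c : Fin (n + 1) → ℝ => ∑ j, c j * p j := by fun_prop
    have h2 : MeasurableSet {c : Fin (n + 1) → ℝ | |∑ j, c j * p j| ≤ δ} :=
      measurableSet_le hm0.abs measurable_const
    exact measurableSet_Icc.inter h2
  have hmp := (volume_preserving_piFinSuccAbove (fun _ => ℝ) i).symm
  have h1 : volume ((MeasurableEquiv.piFinSuccAbove (fun _ => ℝ) i).symm ⁻¹' A) = volume A :=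
    hmp.measure_preimage hAm.nullMeasurableSet
  rw [← h1]
  have hm2 : MeasurableSet ((MeasurableEquiv.piFinSuccAbove (fun _ => ℝ) i).symm ⁻¹' A) :=
    hmp.measurable hAm
  rw [Measure.volume_eq_prod, Measure.prod_apply_symm hm2]
  calc ∫⁻ y, volume ((fun x => (x, y)) ⁻¹' ((MeasurableEquiv.piFinSuccAbove (fun _ => ℝ) i).symm ⁻¹' A))
      ≤ ∫⁻ y, (Set.Icc (-1 : Fin n → ℝ) 1).indicator (fun _ => ENNReal.ofReal (2 * δ / p i)) y := by
        apply lintegral_mono
        intro y
        by_cases hy : y ∈ Set.Icc (-1 : Fin n → ℝ) 1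
        · rw [Set.indicator_of_mem hy]
          have hsub : ((fun x => (x, y)) ⁻¹' ((MeasurableEquiv.piFinSuccAbove (fun _ => ℝ) i).symm ⁻¹' A)) ⊆
              Set.Icc ((-δ - ∑ j, y j * p (i.succAbove j)) / p i)
                ((δ - ∑ j, y j * p (i.succAbove j)) / p i) := by
            intro x hx
            have hx2 : |∑ j, (i.insertNth x y : Fin (n + 1) → ℝ) j * p j| ≤ δ := hx.2
            rw [Fin.sum_univ_succAbove _ i] at hx2
            simp only [Fin.insertNth_apply_same, Fin.insertNth_apply_succAbove] at hx2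
            rw [abs_le] at hx2
            constructor
            · rw [div_le_iff₀ hi]; linarith [hx2.1]
            · rw [le_div_iff₀ hi]; linarith [hx2.2]
          refine (measure_mono hsub).trans ?_
          rw [Real.volume_Icc]
          apply ENNReal.ofReal_le_ofReal
          apply le_of_eq
          ring
        · rw [Set.indicator_of_notMem hy]
          have : ((fun x => (x, y)) ⁻¹' ((MeasurableEquiv.piFinSuccAbove (fun _ => ℝ) i).symm ⁻¹' A)) = ∅ := by
            rw [Set.eq_empty_iff_forall_notMem]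
            intro x hx
            apply hy
            have hx1 : (i.insertNth x y : Fin (n + 1) → ℝ) ∈ Set.Icc (-1) 1 := hx.1
            constructor
            · intro j
              have := hx1.1 (i.succAbove j)
              rwa [Fin.insertNth_apply_succAbove] at this
            · intro j
              have := hx1.2 (i.succAbove j)
              rwa [Fin.insertNth_apply_succAbove] at this
          exact (measure_mono_null this.le measure_empty).le
    _ = 2 ^ n * ENNReal.ofReal (2 * δ / p i) := by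
        rw [lintegral_indicator_const measurableSet_Icc, Real.volume_Icc_pi, mul_comm]
        congr 1
        simp only [Pi.one_apply, Pi.neg_apply, Finset.prod_const, Finset.card_univ, Fintype.card_fin]
        congr 1
        norm_num

theorem slab_prob (p : Fin s → ℝ) (hp : ∀ i, 0 ≤ p i) (hs : ∑ i, p i = 1) (v : ℝ≥0∞) (hv : v ≠ ⊤) :
    volume {c : Fin s → ℝ | c ∈ Set.Icc (-1) 1 ∧ |∑ j, c j * p j| ≤ v.toReal} ≤
      2 ^ s * (s * v) := by
  obtain ⟨i, hi⟩ : ∃ i, 1 ≤ s * p i := by
    by_contra h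
    push Not at h
    rcases Nat.eq_zero_or_pos s with h0 | h0
    · subst h0
      simp at hs
    · have hs0 : (0 : ℝ) < s := by exact_mod_cast h0
      have : ∑ i, (s : ℝ) * p i < ∑ _i : Fin s, (1 : ℝ) := by
        apply Finset.sum_lt_sum_of_nonempty
        · exact ⟨⟨0, h0⟩, Finset.mem_univ _⟩
        · intro i _
          exact h i
      rw [← Finset.mul_sum, hs] at this
      simp at this
  match s, p, hp, hs, i, hi with
  | 0, _, _, _, i, _ => exact i.elim0
  | n + 1, p, hp, hs, i, hi =>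
    have hi0 : 0 < p i := by
      by_contra hc
      have : p i = 0 := le_antisymm (not_lt.1 hc) (hp i)
      rw [this, mul_zero] at hi
      linarith
    refine (slab p i hi0 v.toReal).trans ?_
    have h1 : 2 * v.toReal / p i ≤ 2 * (((n + 1 : ℕ) : ℝ) * v.toReal) := by
      rw [div_le_iff₀ hi0]
      have h2 := mul_le_mul_of_nonneg_left hi (mul_nonneg zero_le_two (ENNReal.toReal_nonneg (a := v)))
      linarith
    calc 2 ^ n * ENNReal.ofReal (2 * v.toReal / p i)
        ≤ 2 ^ n * ENNReal.ofReal (2 * (((n + 1 : ℕ) : ℝ) * v.toReal)) := by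
          gcongr
      _ = 2 ^ (n + 1) * (((n + 1 : ℕ) : ℝ≥0∞) * v) := by
          rw [ENNReal.ofReal_mul zero_le_two, ENNReal.ofReal_mul (Nat.cast_nonneg _),
            ENNReal.ofReal_toReal hv, ENNReal.ofReal_natCast]
          simp only [ENNReal.ofReal_ofNat]
          ring

/-! ### variation over the cells -/

theorem sum_cells {F : Type*} [PseudoEMetricSpace F] (g : ℝ → F) (D : Set ℝ) {a : ℕ → ℝ}
    (ha : Monotone a) (N : ℕ) :
    ∑ k ∈ Finset.range N, eVariationOn g (Set.Ico (a k) (a (k + 1)) ∩ D) ≤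
      eVariationOn g (Set.Iio (a N) ∩ D) := by
  induction N with
  | zero => simp
  | succ N ih =>
    rw [Finset.sum_range_succ]
    refine (add_le_add ih le_rfl).trans ((eVariationOn.add_le_union g ?_).trans ?_)
    · intro x hx y hy
      exact hx.1.le.trans hy.1.1
    · apply eVariationOn.mono
      rintro x (hx | hx)
      · exact ⟨lt_of_lt_of_le hx.1 (ha (Nat.le_succ N)), hx.2⟩
      · exact ⟨hx.1.2, hx.2⟩

/-- the bound for the variation -/
noncomputable def VV (f : Fin s → ℝ[X]) : ℝ≥0∞ :=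
  ENNReal.ofReal (4 * Real.pi * (2 * (supp f).card - 1 : ℕ))

theorem pv_nonneg (f : Fin s → ℝ[X]) (t : ℝ) (i : Fin s) : 0 ≤ pv f t i :=
  div_nonneg (sq_nonneg _) (Finset.sum_nonneg fun j _ => sq_nonneg _)

theorem sum_sq_pos (f : Fin s → ℝ[X]) {t : ℝ} (ht : t ∈ S f) : 0 < ∑ j, (f j).eval t ^ 2 := by
  obtain ⟨i, hi⟩ := ht
  exact Finset.sum_pos' (fun j _ => sq_nonneg _) ⟨i, Finset.mem_univ _, by positivity⟩

theorem pv_sum (f : Fin s → ℝ[X]) {t : ℝ} (ht : t ∈ S f) : ∑ i, pv f t i = 1 := by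
  change ∑ i, (f i).eval t ^ 2 / ∑ j, (f j).eval t ^ 2 = 1
  rw [← Finset.sum_div, div_self (sum_sq_pos f ht).ne']

theorem sum_pv_zero (f : Fin s → ℝ[X]) {c : Fin s → ℝ} {t : ℝ} (h : t ∈ Zs f c) :
    ∑ i, c i * pv f t i = 0 := by
  have h1 : ∑ i, c i * (f i).eval t ^ 2 = 0 := by
    rw [← eval_sq]; exact h
  change ∑ i, c i * ((f i).eval t ^ 2 / ∑ j, (f j).eval t ^ 2) = 0
  simp_rw [← mul_div_assoc]
  rw [← Finset.sum_div, h1, zero_div]

theorem lint_X_le (f : Fin s → ℝ[X]) (hT : (supp f).Nonempty) (n : ℕ) :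
    ∃ Y : (Fin s → ℝ) → ℝ≥0∞, Measurable Y ∧ (∀ c ∈ Set.Icc (-1 : Fin s → ℝ) 1,
      X n (Zs f c ∩ S f) ≤ Y c) ∧ ∫⁻ c in Set.Icc (-1 : Fin s → ℝ) 1, Y c ≤ 2 ^ s * (s * VV f) := by
  classical
  have hV := variation_le f hT
  set cell : ℕ → Set ℝ := fun k => Set.Ico (gp n k) (gp n (k + 1)) ∩ S f with hcell
  have hv : ∀ k, eVariationOn (pv f) (cell k) ≤ VV f := fun k =>
    (eVariationOn.mono _ Set.inter_subset_right).trans hV
  have hvt : ∀ k, eVariationOn (pv f) (cell k) ≠ ⊤ := fun k =>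
    ne_top_of_le_ne_top ENNReal.ofReal_ne_top (hv k)
  have hτ : ∀ k, ∃ τ, (cell k).Nonempty → τ ∈ cell k := by
    intro k
    by_cases h : (cell k).Nonempty
    · exact ⟨h.some, fun _ => h.some_mem⟩
    · exact ⟨0, fun h' => absurd h' h⟩
  choose τ hτ using hτ
  set sl : ℕ → Set (Fin s → ℝ) := fun k => {c | c ∈ Set.Icc (-1) 1 ∧
    |∑ j, c j * pv f (τ k) j| ≤ (eVariationOn (pv f) (cell k)).toReal} with hsl
  have hslm : ∀ k, MeasurableSet (sl k) := by
    intro k
    have hm0 : Measurable fun c : Fin s → ℝ => ∑ j, c j * pv f (τ k) j := by fun_prop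
    have h2 : MeasurableSet {c : Fin s → ℝ | |∑ j, c j * pv f (τ k) j| ≤
        (eVariationOn (pv f) (cell k)).toReal} :=
      measurableSet_le hm0.abs measurable_const
    exact measurableSet_Icc.inter h2
  set K := (Finset.range (gn n)).filter fun k => (cell k).Nonempty with hK
  refine ⟨fun c => ∑ k ∈ K, (sl k).indicator 1 c, ?_, ?_, ?_⟩
  · apply Finset.measurable_sum
    intro k _
    exact measurable_one.indicator (hslm k)
  · intro c hc
    unfold X
    change _ ≤ ∑ k ∈ K, (sl k).indicator 1 c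
    rw [hK, Finset.sum_filter]
    apply Finset.sum_le_sum
    intro k _
    split_ifs with h1 h2 h2
    · have h3 : c ∈ sl k := by
        refine ⟨hc, ?_⟩
        obtain ⟨t, ⟨ht1, ht2⟩, ht3⟩ := h1
        have ht : t ∈ cell k := ⟨ht3, ht2⟩
        have hτk := hτ k h2
        have h4 := eVariationOn.edist_le (pv f) hτk ht
        rw [edist_dist] at h4
        have h5 : dist (pv f (τ k)) (pv f t) ≤ (eVariationOn (pv f) (cell k)).toReal := by
          rw [← ENNReal.ofReal_le_iff_le_toReal (hvt k)]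
          exact h4
        refine le_trans ?_ h5
        rw [PiLp.dist_eq_sum (by norm_num)]
        simp only [ENNReal.toReal_one, Real.rpow_one, div_one]
        have h6 : ∑ j, c j * pv f (τ k) j = ∑ j, c j * (pv f (τ k) j - pv f t j) := by
          simp_rw [mul_sub]
          rw [Finset.sum_sub_distrib, sum_pv_zero f ht1, sub_zero]
        rw [h6]
        refine (Finset.abs_sum_le_sum_abs _ _).trans ?_
        apply Finset.sum_le_sum
        intro j _
        rw [abs_mul, Real.dist_eq]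
        have h7 : |c j| ≤ 1 := abs_le.2 ⟨hc.1 j, hc.2 j⟩
        exact mul_le_of_le_one_left (abs_nonneg _) h7
      rw [Set.indicator_of_mem h3]
      exact le_refl _
    · obtain ⟨t, ⟨ht1, ht2⟩, ht3⟩ := h1
      exact absurd ⟨t, ht3, ht2⟩ h2
    · exact bot_le
    · exact le_refl _
  · rw [lintegral_finsetSum]
    · have h1 : ∀ k ∈ K, ∫⁻ c in Set.Icc (-1 : Fin s → ℝ) 1, (sl k).indicator 1 c ≤
          2 ^ s * (s * eVariationOn (pv f) (cell k)) := by
        intro k hk
        rw [lintegral_indicator_one (hslm k)]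
        refine (Measure.restrict_apply_le _ _).trans ?_
        have hτk := hτ k (Finset.mem_filter.1 hk).2
        exact slab_prob (fun j => pv f (τ k) j) (pv_nonneg f _) (pv_sum f hτk.2) _ (hvt k)
      refine (Finset.sum_le_sum h1).trans ?_
      rw [← Finset.mul_sum, ← Finset.mul_sum]
      gcongr
      calc ∑ k ∈ K, eVariationOn (pv f) (cell k)
          ≤ ∑ k ∈ Finset.range (gn n), eVariationOn (pv f) (cell k) :=
            Finset.sum_le_sum_of_subset (Finset.filter_subset _ _)
        _ ≤ eVariationOn (pv f) (Set.Iio (gp n (gn n)) ∩ S f) := sum_cells _ _ (gp_mono n) _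
        _ ≤ VV f := (eVariationOn.mono _ Set.inter_subset_right).trans hV
    · intro k _
      exact measurable_one.indicator (hslm k)

theorem lint_S (f : Fin s → ℝ[X]) (hT : (supp f).Nonempty) :
    ∃ Y : (Fin s → ℝ) → ℝ≥0∞, Measurable Y ∧ (∀ c ∈ Set.Icc (-1 : Fin s → ℝ) 1,
      ((Zs f c ∩ S f).encard : ℝ≥0∞) ≤ Y c) ∧
        ∫⁻ c in Set.Icc (-1 : Fin s → ℝ) 1, Y c ≤ 2 ^ s * (s * VV f) := by
  choose Y hYm hY1 hY2 using lint_X_le f hT
  refine ⟨fun c => liminf (fun n => Y n c) atTop, Measurable.liminf hYm, ?_, ?_⟩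
  · intro c hc
    refine (le_liminf _).trans ?_
    exact liminf_le_liminf (Eventually.of_forall fun n => hY1 n c hc)
  · refine (lintegral_liminf_le hYm).trans ?_
    exact liminf_le_of_le (f := atTop) (hf := by isBoundedDefault) (h := fun b hb => by
      obtain ⟨n, hn⟩ := hb.exists
      exact hn.trans (hY2 n))

theorem encard_compl (f : Fin s → ℝ[X]) (hf : ∃ i, f i ≠ 0) :
    (((S f)ᶜ.encard : ℕ∞) : ℝ≥0∞) ≤ ((2 * (supp f).card - 1 : ℕ) : ℝ≥0∞) := by
  obtain ⟨i, hi⟩ := hf
  have h1 : (S f)ᶜ ⊆ ((f i).roots.toFinset : Set ℝ) := by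
    intro t ht
    simp only [Finset.mem_coe, Multiset.mem_toFinset]
    rw [mem_roots hi]
    by_contra hc
    exact ht ⟨i, hc⟩
  have h2 := Set.encard_le_encard h1
  rw [Set.encard_coe_eq_coe_finsetCard] at h2
  have h3 := card_roots_sparse (f i) hi
  have h4 : (f i).support.card ≤ (supp f).card := by
    apply Finset.card_le_card
    intro n hn
    unfold supp
    rw [Finset.mem_biUnion]
    exact ⟨i, Finset.mem_univ _, hn⟩
  have h5 : ((f i).roots.toFinset.card : ℕ∞) ≤ ((2 * (supp f).card - 1 : ℕ) : ℕ∞) := by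
    have : (f i).roots.toFinset.card ≤ 2 * (supp f).card - 1 := by omega
    exact_mod_cast this
  have h6 : (((S f)ᶜ.encard : ℕ∞) : ℝ≥0∞) ≤ (((2 * (supp f).card - 1 : ℕ) : ℕ∞) : ℝ≥0∞) :=
    ENat.toENNReal_le.2 (h2.trans h5)
  simpa using h6

theorem main (f : Fin s → ℝ[X]) (hf : ∃ i, f i ≠ 0) :
    ∫⁻ c in Set.Icc (-1 : Fin s → ℝ) 1, ((Zs f c).encard : ℝ≥0∞) ≤
      2 ^ s * (28 * s * (supp f).card) := by
  obtain ⟨i0, hi0⟩ := hf
  have hT : (supp f).Nonempty := by
    obtain ⟨n, hn⟩ := Polynomial.nonempty_support_iff.2 hi0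
    exact ⟨n, by unfold supp; rw [Finset.mem_biUnion]; exact ⟨i0, Finset.mem_univ _, hn⟩⟩
  obtain ⟨Y, hYm, hY1, hY2⟩ := lint_S f hT
  have hs0 : 0 < s := i0.pos
  have hT0 : 0 < (supp f).card := Finset.card_pos.2 hT
  calc ∫⁻ c in Set.Icc (-1 : Fin s → ℝ) 1, ((Zs f c).encard : ℝ≥0∞)
      ≤ ∫⁻ c in Set.Icc (-1 : Fin s → ℝ) 1, (((2 * (supp f).card - 1 : ℕ) : ℝ≥0∞) + Y c) := by
        apply setLIntegral_mono' measurableSet_Icc
        intro c hc
        have h1 : Zs f c ⊆ (S f)ᶜ ∪ (Zs f c ∩ S f) := by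
          intro t ht
          by_cases h : t ∈ S f
          · exact Or.inr ⟨ht, h⟩
          · exact Or.inl h
        have h2 := (Set.encard_le_encard h1).trans (Set.encard_union_le _ _)
        have h3 := ENat.toENNReal_le.2 h2
        rw [ENat.toENNReal_add] at h3
        exact h3.trans (add_le_add (encard_compl f ⟨i0, hi0⟩) (hY1 c hc))
    _ = ((2 * (supp f).card - 1 : ℕ) : ℝ≥0∞) * volume (Set.Icc (-1 : Fin s → ℝ) 1) +
        ∫⁻ c in Set.Icc (-1 : Fin s → ℝ) 1, Y c := by
        rw [lintegral_add_left measurable_const, setLIntegral_const]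
    _ ≤ ((2 * (supp f).card - 1 : ℕ) : ℝ≥0∞) * 2 ^ s + 2 ^ s * (s * VV f) := by
        apply add_le_add _ hY2
        rw [Real.volume_Icc_pi]
        apply le_of_eq
        congr 1
        simp only [Pi.one_apply, Pi.neg_apply, Finset.prod_const, Finset.card_univ, Fintype.card_fin]
        congr 1
        norm_num
    _ = 2 ^ s * (((2 * (supp f).card - 1 : ℕ) : ℝ≥0∞) + s * VV f) := by ring
    _ ≤ 2 ^ s * (28 * s * (supp f).card) := by
        gcongr
        have hpi := Real.pi_lt_d2
        have hs1 : (1 : ℝ) ≤ s := by exact_mod_cast hs0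
        have hT1 : (1 : ℝ) ≤ (supp f).card := by exact_mod_cast hT0
        have e1 : ((2 * (supp f).card - 1 : ℕ) : ℝ) ≤ 2 * (supp f).card := by
          have : 2 * (supp f).card - 1 ≤ 2 * (supp f).card := Nat.sub_le _ _
          exact_mod_cast this
        have h1 : ((2 * (supp f).card - 1 : ℕ) : ℝ≥0∞) + s * VV f =
            ENNReal.ofReal (((2 * (supp f).card - 1 : ℕ) : ℝ) +
              s * (4 * Real.pi * (2 * (supp f).card - 1 : ℕ))) := by
          unfold VV
          rw [ENNReal.ofReal_add (Nat.cast_nonneg _) (by positivity), ENNReal.ofReal_natCast,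
            ENNReal.ofReal_mul (Nat.cast_nonneg s), ENNReal.ofReal_natCast]
        have h2 : (28 * s * (supp f).card : ℝ≥0∞) = ENNReal.ofReal (28 * s * (supp f).card) := by
          rw [ENNReal.ofReal_mul (by positivity), ENNReal.ofReal_mul (by norm_num),
            ENNReal.ofReal_natCast, ENNReal.ofReal_natCast]
          simp
        rw [h1, h2]
        apply ENNReal.ofReal_le_ofReal
        have h3 : (s : ℝ) * (4 * Real.pi * (2 * (supp f).card - 1 : ℕ)) ≤
            s * (4 * 3.15 * (2 * (supp f).card)) := by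
          have hp0 := Real.pi_pos
          gcongr
        have h4 : (2 * (supp f).card : ℝ) ≤ s * (2 * (supp f).card) :=
          le_mul_of_one_le_left (by positivity) hs1
        nlinarith [h3, h4, e1]

end MP5180ba
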