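import Mathlib

/-!
# MP_5180ba - real roots of sparse polynomials
-/

namespace MP5180ba

open Polynomial

private lemma signVariations_lt :
    ∀ (n : ℕ) (P : ℝ[X]), P ≠ 0 → P.support.card = n → P.signVariations + 1 ≤ n := by
  intro n
  induction n with
  | zero =>
    intro P hP hc
    exact absurd (Polynomial.support_eq_empty.1 (Finset.card_eq_zero.1 hc)) hP
  | succ n ih =>
    intro P hP hc
    by_cases he : P.eraseLead = 0
    · have : P = monomial P.natDegree P.leadingCoeff := by
        have := Polynomial.eraseLead_add_monomial_natDegree_leadingCoeff P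
        rw [he, zero_add] at this
        exact this.symm
      rw [this, Polynomial.signVariations_monomial]
      omega
    · have h1 : P.eraseLead.support.card = n := by
        have := Polynomial.card_support_eraseLead' (f := P) (c := n) hc
        exact this
      have h2 := ih P.eraseLead he h1
      have h3 := Polynomial.signVariations_le_eraseLead_succ P
      omega

theorem card_pos_roots (P : ℝ[X]) (hP : P ≠ 0) :
    (P.roots.toFinset.filter (0 < ·)).card + 1 ≤ P.support.card := by
  have h1 := signVariations_lt _ P hP rfl
  have h2 := Polynomial.roots_countP_pos_le_signVariations P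
  have h3 : (P.roots.toFinset.filter (0 < ·)).card ≤ P.roots.countP (0 < ·) := by
    rw [Multiset.countP_eq_card_filter]
    have h4 : P.roots.toFinset.filter (0 < ·) = (P.roots.filter (0 < ·)).toFinset := by
      ext x; simp
    rw [h4]
    exact Multiset.toFinset_card_le _
  omega

/-- a polynomial with `T` terms has at most `2 T - 1` distinct real roots -/
theorem card_roots_sparse (P : ℝ[X]) (hP : P ≠ 0) :
    P.roots.toFinset.card + 1 ≤ 2 * P.support.card := by
  have h1 := card_pos_roots P hP
  set Q : ℝ[X] := P.comp (-X) with hQ
  have hQ0 : Q ≠ 0 := by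
    intro h
    apply hP
    have : Q.comp (-X) = P := by
      rw [hQ, Polynomial.comp_assoc]
      simp
    rw [← this, h, Polynomial.zero_comp]
  have hQs : Q.support = P.support := by
    ext n
    rw [mem_support_iff, mem_support_iff, hQ, show (-X : ℝ[X]) = C (-1) * X by simp,
      Polynomial.comp_C_mul_X_coeff]
    have h : ((-1 : ℝ) ^ n) ≠ 0 := pow_ne_zero _ (by norm_num)
    constructor
    · intro h1 h2; exact h1 (by rw [h2, zero_mul])
    · intro h1 h2; exact h1 ((mul_eq_zero.1 h2).resolve_right h)
  have h2 := card_pos_roots Q hQ0
  rw [hQs] at h2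
  have h3 : (P.roots.toFinset.filter (· < 0)).card ≤ (Q.roots.toFinset.filter (0 < ·)).card := by
    apply Finset.card_le_card_of_injOn (fun x => -x)
    · intro x hx
      simp only [Finset.coe_filter, Multiset.mem_toFinset, Set.mem_ofPred_eq, mem_roots hP,
        mem_roots hQ0] at hx ⊢
      refine ⟨?_, by linarith [hx.2]⟩
      rw [hQ, IsRoot.def, eval_comp]
      simpa using hx.1
    · intro x _ y _ h
      simpa using h
  have h4 : P.roots.toFinset ⊆ (P.roots.toFinset.filter (0 < ·)) ∪ (P.roots.toFinset.filter (· < 0)) ∪ {0} := by
    intro x hx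
    simp only [Finset.mem_union, Finset.mem_filter, Finset.mem_singleton]
    rcases lt_trichotomy x 0 with h | h | h
    · exact Or.inl (Or.inr ⟨hx, h⟩)
    · exact Or.inr h
    · exact Or.inl (Or.inl ⟨hx, h⟩)
  have h5 := Finset.card_le_card h4
  have h6 := Finset.card_union_le ((P.roots.toFinset.filter (0 < ·)) ∪ (P.roots.toFinset.filter (· < 0))) {0}
  have h7 := Finset.card_union_le (P.roots.toFinset.filter (0 < ·)) (P.roots.toFinset.filter (· < 0))
  rw [Finset.card_singleton] at h6
  omega

end MP5180ba
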