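import Mathlib

/-!
# MP_5180ba - sign changes of a random linear form

For unit vectors `u, w` the linear form `⟪a, ·⟫`, `a` uniformly distributed in the unit ball, changes
its sign between `u` and `w` with probability at least `(sin θ) / (2 π)`, `θ` the angle.
-/

namespace MP5180ba

open MeasureTheory InnerProductSpace
open scoped ENNReal RealInnerProductSpace

variable {s : ℕ}

/-- the Euclidean space -/
abbrev E (s : ℕ) := EuclideanSpace ℝ (Fin s)

/-- the unit ball -/
def B (s : ℕ) : Set (E s) := Metric.ball 0 1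

/-- the linear forms changing sign between `u` and `w` -/
def sc (u w : E s) : Set (E s) := {a | ⟪a, u⟫_ℝ * ⟪a, w⟫_ℝ < 0}

/-- measure of the part in the ball -/
noncomputable def m (A : Set (E s)) : ℝ := volume.real (B s ∩ A)

theorem sc_comm (u w : E s) : sc u w = sc w u := by
  ext a
  simp only [sc, Set.mem_ofPred_eq]
  rw [mul_comm]

theorem measurableSet_B : MeasurableSet (B s) := measurableSet_ball

theorem measurableSet_sc (u w : E s) : MeasurableSet (sc u w) := by
  unfold sc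
  apply measurableSet_lt
  · fun_prop
  · fun_prop

theorem volume_B_ne_top : volume (B s) ≠ ⊤ := measure_ball_lt_top.ne

theorem volume_inter_ne_top (A : Set (E s)) : volume (B s ∩ A) ≠ ⊤ :=
  measure_ne_top_of_subset Set.inter_subset_left volume_B_ne_top

theorem volume_B_pos : 0 < volume.real (B s) := by
  rw [Measure.real, ENNReal.toReal_pos_iff]
  exact ⟨Metric.measure_ball_pos _ _ one_pos, measure_ball_lt_top⟩

theorem m_refl {x y z : E s} (hxz : ‖x‖ = ‖z‖) (hy : ⟪y, x - z⟫_ℝ = 0) :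
    m (sc x y) = m (sc z y) := by
  set R := ((ℝ ∙ (x - z))ᗮ).reflection with hR
  have h1 : R x = z := Submodule.reflection_sub hxz
  have h2 : R y = y := by
    apply Submodule.reflection_mem_subspace_eq_self
    rw [Submodule.mem_orthogonal_singleton_iff_inner_left]
    exact hy
  have h3 : R ⁻¹' (B s ∩ sc z y) = B s ∩ sc x y := by
    ext a
    simp only [Set.mem_preimage, Set.mem_inter_iff, B, Metric.mem_ball, dist_zero_right, sc,
      Set.mem_ofPred_eq, LinearIsometryEquiv.norm_map]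
    have h4 : ⟪R a, z⟫_ℝ = ⟪a, x⟫_ℝ := by rw [← h1, LinearIsometryEquiv.inner_map_map]
    have h5 : ⟪R a, y⟫_ℝ = ⟪a, y⟫_ℝ := by
      conv_lhs => rw [← h2]
      rw [LinearIsometryEquiv.inner_map_map]
    rw [h4, h5]
  have h4 : volume (R ⁻¹' (B s ∩ sc z y)) = volume (B s ∩ sc z y) :=
    (LinearIsometryEquiv.measurePreserving R).measure_preimage
      (measurableSet_B.inter (measurableSet_sc z y)).nullMeasurableSet
  unfold m
  rw [Measure.real, Measure.real, ← h4, h3]

/-- equally spaced points on a great circle -/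
noncomputable def ec (u v : E s) (θ : ℝ) (k : ℕ) : E s :=
  Real.cos (k * θ) • u + Real.sin (k * θ) • v

theorem inner_ec {u v : E s} (hu : ‖u‖ = 1) (hv : ‖v‖ = 1) (huv : ⟪u, v⟫_ℝ = 0) (θ : ℝ) (k l : ℕ) :
    ⟪ec u v θ k, ec u v θ l⟫_ℝ = Real.cos (k * θ - l * θ) := by
  have h : ⟪v, u⟫_ℝ = 0 := by rw [real_inner_comm]; exact huv
  unfold ec
  rw [inner_add_left, inner_add_right, inner_add_right]
  simp only [inner_smul_left, inner_smul_right, real_inner_self_eq_norm_sq, hu, hv, huv, h]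
  rw [Real.cos_sub]
  simp
  ring

theorem norm_ec {u v : E s} (hu : ‖u‖ = 1) (hv : ‖v‖ = 1) (huv : ⟪u, v⟫_ℝ = 0) (θ : ℝ) (k : ℕ) :
    ‖ec u v θ k‖ = 1 := by
  have h := inner_ec hu hv huv θ k k
  rw [sub_self, Real.cos_zero, real_inner_self_eq_norm_sq] at h
  have h2 := norm_nonneg (ec u v θ k)
  nlinarith [h, h2]

theorem m_ec {u v : E s} (hu : ‖u‖ = 1) (hv : ‖v‖ = 1) (huv : ⟪u, v⟫_ℝ = 0) (θ : ℝ) (k : ℕ) :
    m (sc (ec u v θ k) (ec u v θ (k + 1))) = m (sc (ec u v θ 0) (ec u v θ 1)) := by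
  induction k with
  | zero => rfl
  | succ k ih =>
    rw [← ih]
    have h1 : ‖ec u v θ k‖ = ‖ec u v θ (k + 2)‖ := by
      rw [norm_ec hu hv huv, norm_ec hu hv huv]
    have h2 : ⟪ec u v θ (k + 1), ec u v θ k - ec u v θ (k + 2)⟫_ℝ = 0 := by
      rw [inner_sub_right, inner_ec hu hv huv, inner_ec hu hv huv]
      rw [sub_eq_zero, ← Real.cos_neg]
      congr 1
      push_cast
      ring
    rw [m_refl h1 h2, sc_comm]

/-- a positive or negative sinusoid cannot keep its sign along an arc of length at least `π` -/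
theorem exists_sign_change {α β θ : ℝ} (hθ : 0 < θ) (hθπ : θ < Real.pi) {N : ℕ}
    (hN : Real.pi ≤ N * θ) (g : ℕ → ℝ) (hg : ∀ k : ℕ, g k = α * Real.cos (k * θ) + β * Real.sin (k * θ))
    (h0 : ∀ k, k ≤ N → g k ≠ 0) : ∃ k, k < N ∧ g k * g (k + 1) < 0 := by
  by_contra hcon
  push Not at hcon
  have hpos : ∀ k, k ≤ N → 0 < g 0 * g k := by
    intro k
    induction k with
    | zero =>
      intro _
      exact mul_self_pos.2 (h0 0 (Nat.zero_le _))
    | succ k ih =>
      intro hk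
      have h1 := ih (by omega)
      have h2 := hcon k (by omega)
      have h3 : 0 < g k * g (k + 1) :=
        lt_of_le_of_ne h2 (Ne.symm (mul_ne_zero (h0 k (by omega)) (h0 (k + 1) hk)))
      have h4 : 0 < (g 0 * g k) * (g k * g (k + 1)) := mul_pos h1 h3
      have h5 : (g 0 * g k) * (g k * g (k + 1)) = (g 0 * g (k + 1)) * (g k) ^ 2 := by ring
      rw [h5] at h4
      exact pos_of_mul_pos_left h4 (sq_nonneg _)
  classical
  have hex : ∃ n : ℕ, Real.pi ≤ n * θ := ⟨N, hN⟩
  set n := Nat.find hex with hn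
  have hn1 : Real.pi ≤ n * θ := Nat.find_spec hex
  have hnN : n ≤ N := Nat.find_min' hex hN
  have hn0 : n ≠ 0 := by
    intro h
    rw [h] at hn1
    simp at hn1
    linarith [Real.pi_pos]
  obtain ⟨l, hl⟩ := Nat.exists_eq_succ_of_ne_zero hn0
  have hn2 : ((l : ℕ) : ℝ) * θ < Real.pi := by
    by_contra hc
    have := Nat.find_min' hex (not_lt.1 hc)
    omega
  have hx0 : 0 ≤ n * θ - Real.pi := by linarith
  have hx1 : n * θ - Real.pi < θ := by
    rw [hl]
    push_cast
    linarith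
  obtain ⟨x, hx⟩ : ∃ x, x = n * θ - Real.pi := ⟨_, rfl⟩
  rw [← hx] at hx0 hx1
  have e1 : g n = -(α * Real.cos x + β * Real.sin x) := by
    rw [hg n, hx, Real.cos_sub_pi, Real.sin_sub_pi]
    ring
  have hs : 0 < Real.sin θ := Real.sin_pos_of_pos_of_lt_pi hθ hθπ
  have hsx : 0 ≤ Real.sin x := Real.sin_nonneg_of_nonneg_of_le_pi hx0 (by linarith)
  have hsx2 : 0 < Real.sin (θ - x) := Real.sin_pos_of_pos_of_lt_pi (by linarith) (by linarith)
  have hg0 : g 0 = α := by rw [hg 0]; simp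
  have hg1 : g 1 = α * Real.cos θ + β * Real.sin θ := by rw [hg 1]; simp
  have e2 : (α * Real.cos x + β * Real.sin x) * Real.sin θ = g 0 * Real.sin (θ - x) +
      g 1 * Real.sin x := by
    rw [hg0, hg1, Real.sin_sub]
    ring
  have hN1 : 1 ≤ N := by omega
  have p0 := hpos 0 (Nat.zero_le _)
  have p1 := hpos 1 hN1
  have pn := hpos n hnN
  have e3 : (g 0 * g n) * Real.sin θ = -((g 0 * g 0) * Real.sin (θ - x) +
      (g 0 * g 1) * Real.sin x) := by
    rw [e1]
    linear_combination (-(g 0)) * e2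
  have q0 := mul_pos pn hs
  have q1 := mul_pos p0 hsx2
  have q2 := mul_nonneg p1.le hsx
  linarith

theorem volume_perp {u : E s} (hu : u ≠ 0) : volume {a : E s | ⟪a, u⟫_ℝ = 0} = 0 := by
  have h1 : {a : E s | ⟪a, u⟫_ℝ = 0} = ((ℝ ∙ u)ᗮ : Submodule ℝ (E s)) := by
    ext a
    simp only [Set.mem_ofPred_eq, SetLike.mem_coe]
    rw [Submodule.mem_orthogonal_singleton_iff_inner_left]
  rw [h1]
  apply Measure.addHaar_submodule
  intro h
  have h2 : u ∈ (ℝ ∙ u)ᗮ := by rw [h]; trivial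
  rw [Submodule.mem_orthogonal_singleton_iff_inner_left] at h2
  exact hu (inner_self_eq_zero.1 h2)

theorem vol_le {u v : E s} (hu : ‖u‖ = 1) (hv : ‖v‖ = 1) (huv : ⟪u, v⟫_ℝ = 0) {θ : ℝ} (hθ : 0 < θ)
    (hθπ : θ < Real.pi) {N : ℕ} (hN : Real.pi ≤ N * θ) :
    volume.real (B s) ≤ N * m (sc (ec u v θ 0) (ec u v θ 1)) := by
  have hne : ∀ k, ec u v θ k ≠ 0 := by
    intro k h
    have := norm_ec hu hv huv θ k
    rw [h, norm_zero] at this
    exact zero_ne_one this
  have hsub : B s ⊆ (⋃ k ∈ Finset.range N, B s ∩ sc (ec u v θ k) (ec u v θ (k + 1))) ∪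
      ⋃ k ∈ Finset.range (N + 1), {a : E s | ⟪a, ec u v θ k⟫_ℝ = 0} := by
    intro a ha
    by_cases h : ∃ k, k ≤ N ∧ ⟪a, ec u v θ k⟫_ℝ = 0
    · obtain ⟨k, hk, hk2⟩ := h
      right
      simp only [Set.mem_iUnion, Finset.mem_range]
      exact ⟨k, by omega, hk2⟩
    · push Not at h
      left
      obtain ⟨k, hk, hk2⟩ := exists_sign_change (α := ⟪a, u⟫_ℝ) (β := ⟪a, v⟫_ℝ) hθ hθπ hN
        (fun k => ⟪a, ec u v θ k⟫_ℝ) (fun k => by
          unfold ec
          rw [inner_add_right, inner_smul_right, inner_smul_right]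
          ring) h
      simp only [Set.mem_iUnion, Finset.mem_range]
      exact ⟨k, hk, ha, hk2⟩
  have h1 : volume (B s) ≤ ∑ k ∈ Finset.range N,
      volume (B s ∩ sc (ec u v θ k) (ec u v θ (k + 1))) := by
    refine (measure_mono hsub).trans ((measure_union_le _ _).trans ?_)
    have h2 : volume (⋃ k ∈ Finset.range (N + 1), {a : E s | ⟪a, ec u v θ k⟫_ℝ = 0}) = 0 := by
      refine le_antisymm ((measure_biUnion_finset_le _ _).trans (le_of_eq ?_)) bot_le
      exact Finset.sum_eq_zero fun k _ => volume_perp (hne k)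
    rw [h2, add_zero]
    exact measure_biUnion_finset_le _ _
  have h2 : volume.real (B s) ≤ ∑ k ∈ Finset.range N, m (sc (ec u v θ k) (ec u v θ (k + 1))) := by
    unfold m
    simp only [Measure.real]
    rw [← ENNReal.toReal_sum (fun k _ => volume_inter_ne_top _)]
    exact ENNReal.toReal_mono (ENNReal.sum_ne_top.2 fun k _ => volume_inter_ne_top _) h1
  refine h2.trans (le_of_eq ?_)
  rw [Finset.sum_congr rfl fun k _ => m_ec hu hv huv θ k]
  rw [Finset.sum_const, Finset.card_range, nsmul_eq_mul]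

theorem sc_lower {u w : E s} (hu : ‖u‖ = 1) (hw : ‖w‖ = 1) :
    (2 * Real.sqrt (1 - ⟪u, w⟫_ℝ ^ 2)) * volume.real (B s) ≤ 4 * Real.pi * m (sc u w) := by
  have hm0 : 0 ≤ m (sc u w) := measureReal_nonneg
  have hB := volume_B_pos (s := s)
  set θ := InnerProductGeometry.angle u w with hθ
  have hcos : Real.cos θ = ⟪u, w⟫_ℝ := by
    rw [hθ, InnerProductGeometry.cos_angle, hu, hw]
    simp
  have hθ0 : 0 ≤ θ := InnerProductGeometry.angle_nonneg _ _
  have hθπ : θ ≤ Real.pi := InnerProductGeometry.angle_le_pi _ _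
  have hsin : Real.sqrt (1 - ⟪u, w⟫_ℝ ^ 2) = Real.sin θ := by
    rw [← hcos, ← Real.sin_sq, Real.sqrt_sq (Real.sin_nonneg_of_nonneg_of_le_pi hθ0 hθπ)]
  rw [hsin]
  by_cases hs : Real.sin θ = 0
  · rw [hs]
    have := Real.pi_pos
    simp
    positivity
  · have hs0 : 0 < Real.sin θ :=
      lt_of_le_of_ne (Real.sin_nonneg_of_nonneg_of_le_pi hθ0 hθπ) (Ne.symm hs)
    have hθ0' : 0 < θ := by
      rcases hθ0.lt_or_eq with h | h
      · exact h
      · rw [← h, Real.sin_zero] at hs; exact absurd rfl hs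
    have hθπ' : θ < Real.pi := by
      rcases hθπ.lt_or_eq with h | h
      · exact h
      · rw [h, Real.sin_pi] at hs; exact absurd rfl hs
    set v : E s := (Real.sin θ)⁻¹ • (w - Real.cos θ • u) with hv
    have huu : ⟪u, u⟫_ℝ = 1 := by rw [real_inner_self_eq_norm_sq, hu]; norm_num
    have hww : ⟪w, w⟫_ℝ = 1 := by rw [real_inner_self_eq_norm_sq, hw]; norm_num
    have hwu : ⟪w, u⟫_ℝ = Real.cos θ := by rw [real_inner_comm, hcos]
    have huv : ⟪u, v⟫_ℝ = 0 := by
      rw [hv, inner_smul_right, inner_sub_right, inner_smul_right, huu, ← hcos]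
      ring
    have hvv : ‖v‖ = 1 := by
      have h1 : ⟪v, v⟫_ℝ = 1 := by
        rw [hv, inner_smul_left, inner_smul_right, inner_sub_left, inner_sub_right, inner_sub_right,
          inner_smul_left, inner_smul_right, inner_smul_left, inner_smul_right, huu, hww, hwu, ← hcos]
        simp only [conj_trivial]
        have := Real.sin_sq_add_cos_sq θ
        field_simp
        linear_combination (-1 : ℝ) * this
      rw [real_inner_self_eq_norm_sq] at h1
      have := norm_nonneg v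
      nlinarith
    have e0 : ec u v θ 0 = u := by unfold ec; simp
    have e1 : ec u v θ 1 = w := by
      unfold ec
      rw [hv, Nat.cast_one, one_mul, smul_smul, mul_inv_cancel₀ hs, one_smul]
      abel
    obtain ⟨N, hN1, hN2⟩ : ∃ N : ℕ, Real.pi ≤ N * θ ∧ (N : ℝ) * θ ≤ 2 * Real.pi := by
      refine ⟨⌈Real.pi / θ⌉₊, ?_, ?_⟩
      · have := Nat.le_ceil (Real.pi / θ)
        rwa [div_le_iff₀ hθ0'] at this
      · have h1 := (Nat.ceil_lt_add_one (div_nonneg Real.pi_pos.le hθ0'.le)).le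
        have h2 := mul_le_mul_of_nonneg_right h1 hθ0'.le
        rw [add_mul, div_mul_cancel₀ _ hθ0'.ne'] at h2
        linarith
    have h := vol_le hu hvv huv hθ0' hθπ' hN1
    rw [e0, e1] at h
    have h3 : Real.sin θ ≤ θ := Real.sin_le hθ0
    have h4 : Real.sin θ * volume.real (B s) ≤ θ * (N * m (sc u w)) :=
      mul_le_mul h3 h hB.le hθ0
    have h5 : (N * θ) * m (sc u w) ≤ (2 * Real.pi) * m (sc u w) :=
      mul_le_mul_of_nonneg_right hN2 hm0
    nlinarith

/-- the distance of the probability vectors `u ∘ u` and `w ∘ w` -/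
theorem sum_sq_sub_le {u w : E s} (hu : ‖u‖ = 1) (hw : ‖w‖ = 1) :
    ∑ i, |u i ^ 2 - w i ^ 2| ≤ 2 * Real.sqrt (1 - ⟪u, w⟫_ℝ ^ 2) := by
  have h1 : ∑ i, |u i ^ 2 - w i ^ 2| = ∑ i, |(u - w) i| * |(u + w) i| := by
    apply Finset.sum_congr rfl
    intro i _
    rw [← abs_mul]
    congr 1
    simp
    ring
  rw [h1]
  refine (Real.sum_mul_le_sqrt_mul_sqrt _ _ _).trans ?_
  simp only [sq_abs]
  have hn1 : ∑ i, (u - w) i ^ 2 = 2 - 2 * ⟪u, w⟫_ℝ := by
    have h := norm_sub_sq_real u w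
    rw [EuclideanSpace.norm_eq, Real.sq_sqrt (Finset.sum_nonneg fun i _ => sq_nonneg _), hu, hw] at h
    simp only [Real.norm_eq_abs, sq_abs] at h
    linarith
  have hn2 : ∑ i, (u + w) i ^ 2 = 2 + 2 * ⟪u, w⟫_ℝ := by
    have h := norm_add_sq_real u w
    rw [EuclideanSpace.norm_eq, Real.sq_sqrt (Finset.sum_nonneg fun i _ => sq_nonneg _), hu, hw] at h
    simp only [Real.norm_eq_abs, sq_abs] at h
    linarith
  have hp : 0 ≤ 2 - 2 * ⟪u, w⟫_ℝ := by
    rw [← hn1]; exact Finset.sum_nonneg fun i _ => sq_nonneg _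
  rw [hn1, hn2, ← Real.sqrt_mul hp]
  have h4 : (2 : ℝ) = Real.sqrt 4 := by
    rw [show (4 : ℝ) = 2 ^ 2 by norm_num, Real.sqrt_sq (by norm_num)]
  apply le_of_eq
  conv_rhs => rw [h4]
  rw [← Real.sqrt_mul (by norm_num : (0 : ℝ) ≤ 4)]
  congr 1
  ring

end MP5180ba
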