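import Pool.Agent.Lib_MP_5180ba.Sphere
import Pool.Agent.Lib_MP_5180ba.Sparse

/-!
# MP_5180ba - the variation of the curve of probability vectors `f_i(t)^2 / ∑ f_j(t)^2`
-/

namespace MP5180ba

open Polynomial MeasureTheory InnerProductSpace
open scoped ENNReal RealInnerProductSpace

variable {s : ℕ}

/-- the union of the supports -/
def supp (f : Fin s → ℝ[X]) : Finset ℕ := Finset.univ.biUnion fun i => (f i).support

/-- the curve -/
noncomputable def gam (f : Fin s → ℝ[X]) (t : ℝ) : E s := WithLp.toLp 2 fun i => (f i).eval t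

/-- the points which are not common zeros -/
def S (f : Fin s → ℝ[X]) : Set ℝ := {t | ∃ i, (f i).eval t ≠ 0}

/-- the curve of probability vectors -/
noncomputable def pv (f : Fin s → ℝ[X]) (t : ℝ) : PiLp 1 (fun _ : Fin s => ℝ) :=
  WithLp.toLp 1 fun i => (f i).eval t ^ 2 / ∑ j, (f j).eval t ^ 2

/-- linear combination -/
noncomputable def lin (f : Fin s → ℝ[X]) (a : E s) : ℝ[X] := ∑ i, C (a i) * f i

theorem eval_lin (f : Fin s → ℝ[X]) (a : E s) (t : ℝ) : (lin f a).eval t = ⟪a, gam f t⟫_ℝ := by
  unfold lin gam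
  rw [eval_finset_sum, PiLp.inner_apply]
  apply Finset.sum_congr rfl
  intro i _
  simp
  ring

theorem supp_lin (f : Fin s → ℝ[X]) (a : E s) : (lin f a).support ⊆ supp f := by
  intro n hn
  rw [mem_support_iff] at hn
  by_contra h
  apply hn
  unfold lin
  rw [finset_sum_coeff]
  apply Finset.sum_eq_zero
  intro i _
  rw [coeff_C_mul]
  have : (f i).coeff n = 0 := by
    by_contra hc
    apply h
    unfold supp
    rw [Finset.mem_biUnion]
    exact ⟨i, Finset.mem_univ _, mem_support_iff.2 hc⟩
  rw [this, mul_zero]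

theorem ivt_neg (P : ℝ[X]) {x y : ℝ} (hxy : x ≤ y) (h : P.eval x * P.eval y < 0) :
    ∃ r, x < r ∧ r < y ∧ P.eval r = 0 := by
  have hx : P.eval x ≠ 0 := fun h0 => by rw [h0, zero_mul] at h; exact lt_irrefl _ h
  have hy : P.eval y ≠ 0 := fun h0 => by rw [h0, mul_zero] at h; exact lt_irrefl _ h
  have hc : ContinuousOn (fun t => P.eval t) (Set.Icc x y) := P.continuous.continuousOn
  obtain ⟨r, hr, hr0⟩ : ∃ r ∈ Set.Icc x y, P.eval r = 0 := by
    rcases lt_or_gt_of_ne hx with h1 | h1
    · have h2 : 0 < P.eval y := by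
        by_contra hcon
        have h3 : P.eval y ≤ 0 := not_lt.1 hcon
        have := mul_nonneg_of_nonpos_of_nonpos h1.le h3
        linarith
      exact intermediate_value_Icc hxy hc ⟨h1.le, h2.le⟩
    · have h2 : P.eval y < 0 := by
        by_contra hcon
        have h3 : 0 ≤ P.eval y := not_lt.1 hcon
        have := mul_nonneg h1.le h3
        linarith
      exact intermediate_value_Icc' hxy hc ⟨h2.le, h1.le⟩
  refine ⟨r, lt_of_le_of_ne hr.1 ?_, lt_of_le_of_ne hr.2 ?_, hr0⟩
  · rintro rfl; exact hx hr0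
  · rintro rfl; exact hy hr0

open Classical in
/-- number of sign changes along a sequence -/
theorem card_sc_le (f : Fin s → ℝ[X]) (hT : (supp f).Nonempty) (a : E s) {u : ℕ → ℝ} (hu : Monotone u)
    (n : ℕ) : ((Finset.range n).filter fun k => a ∈ sc (gam f (u k)) (gam f (u (k + 1)))).card ≤
      2 * (supp f).card - 1 := by
  set F := (Finset.range n).filter fun k => a ∈ sc (gam f (u k)) (gam f (u (k + 1))) with hF
  rcases F.eq_empty_or_nonempty with h0 | ⟨k0, hk0⟩
  · rw [h0, Finset.card_empty]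
    exact Nat.zero_le _
  · have hev : ∀ k ∈ F, (lin f a).eval (u k) * (lin f a).eval (u (k + 1)) < 0 := by
      intro k hk
      have h1 := (Finset.mem_filter.1 hk).2
      rw [eval_lin, eval_lin]
      exact h1
    have hP : lin f a ≠ 0 := by
      intro h
      have := hev k0 hk0
      rw [h] at this
      simp at this
    have hex : ∀ k, ∃ r, k ∈ F → u k < r ∧ r < u (k + 1) ∧ (lin f a).eval r = 0 := by
      intro k
      by_cases hk : k ∈ F
      · obtain ⟨r, h1, h2, h3⟩ := ivt_neg (lin f a) (hu (Nat.le_succ k)) (hev k hk)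
        exact ⟨r, fun _ => ⟨h1, h2, h3⟩⟩
      · exact ⟨0, fun h => absurd h hk⟩
    choose r hr using hex
    have hinj : Set.InjOn r F := by
      have key : ∀ k l, k ∈ F → l ∈ F → k < l → r k < r l := by
        intro k l hk hl hkl
        have h1 := (hr k hk).2.1
        have h2 := (hr l hl).1
        have h3 := hu (Nat.succ_le_of_lt hkl)
        exact h1.trans (lt_of_le_of_lt h3 h2)
      intro k hk l hl hkl
      rcases lt_trichotomy k l with h | h | h
      · exact absurd hkl (key k l hk hl h).ne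
      · exact h
      · exact absurd hkl (key l k hl hk h).ne'
    have h1 : F.card ≤ (lin f a).roots.toFinset.card := by
      apply Finset.card_le_card_of_injOn r _ hinj
      intro k hk
      simp only [Finset.mem_coe, Multiset.mem_toFinset]
      exact (mem_roots hP).2 (hr k hk).2.2
    have h2 := card_roots_sparse _ hP
    have h3 := Finset.card_le_card (supp_lin f a)
    omega

theorem sum_sc_le (f : Fin s → ℝ[X]) (hT : (supp f).Nonempty) {u : ℕ → ℝ} (hu : Monotone u)
    (n : ℕ) : ∑ k ∈ Finset.range n, m (sc (gam f (u k)) (gam f (u (k + 1)))) ≤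
      (2 * (supp f).card - 1 : ℕ) * volume.real (B s) := by
  classical
  have h1 : ∑ k ∈ Finset.range n, volume (B s ∩ sc (gam f (u k)) (gam f (u (k + 1)))) ≤
      (2 * (supp f).card - 1 : ℕ) * volume (B s) := by
    have h2 : ∀ k ∈ Finset.range n, volume (B s ∩ sc (gam f (u k)) (gam f (u (k + 1)))) =
        ∫⁻ a in B s, (sc (gam f (u k)) (gam f (u (k + 1)))).indicator 1 a := by
      intro k _
      rw [lintegral_indicator_one (measurableSet_sc _ _), Measure.restrict_apply (measurableSet_sc _ _),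
        Set.inter_comm]
    rw [Finset.sum_congr rfl h2, ← lintegral_finset_sum]
    · calc ∫⁻ a in B s, ∑ k ∈ Finset.range n, (sc (gam f (u k)) (gam f (u (k + 1)))).indicator 1 a
          ≤ ∫⁻ _ in B s, ((2 * (supp f).card - 1 : ℕ) : ℝ≥0∞) := by
            apply lintegral_mono
            intro a
            have h3 := card_sc_le f hT a hu n
            have h4 : ∑ k ∈ Finset.range n, (sc (gam f (u k)) (gam f (u (k + 1)))).indicator
                (1 : E s → ℝ≥0∞) a = (((Finset.range n).filter fun k =>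
                  a ∈ sc (gam f (u k)) (gam f (u (k + 1)))).card : ℝ≥0∞) := by
              rw [Finset.card_filter]
              push_cast
              apply Finset.sum_congr rfl
              intro k _
              by_cases hk : a ∈ sc (gam f (u k)) (gam f (u (k + 1)))
              · rw [Set.indicator_of_mem hk, if_pos hk]; rfl
              · rw [Set.indicator_of_notMem hk, if_neg hk]
            simp only [h4]
            exact_mod_cast h3
        _ = _ := by
            rw [setLIntegral_const]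
    · intro k _
      exact measurable_one.indicator (measurableSet_sc _ _)
  have h2 : ∑ k ∈ Finset.range n, m (sc (gam f (u k)) (gam f (u (k + 1)))) =
      (∑ k ∈ Finset.range n, volume (B s ∩ sc (gam f (u k)) (gam f (u (k + 1))))).toReal := by
    rw [ENNReal.toReal_sum (fun k _ => volume_inter_ne_top _)]
    rfl
  rw [h2]
  have h3 := ENNReal.toReal_mono (ENNReal.mul_ne_top (ENNReal.natCast_ne_top _) volume_B_ne_top) h1
  rw [ENNReal.toReal_mul, ENNReal.toReal_natCast] at h3
  exact h3

theorem gam_ne (f : Fin s → ℝ[X]) {t : ℝ} (ht : t ∈ S f) : gam f t ≠ 0 := by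
  obtain ⟨i, hi⟩ := ht
  intro h
  apply hi
  have : gam f t i = (0 : E s) i := by rw [h]
  simpa [gam] using this

theorem norm_gam_sq (f : Fin s → ℝ[X]) (t : ℝ) : ‖gam f t‖ ^ 2 = ∑ j, (f j).eval t ^ 2 := by
  rw [EuclideanSpace.norm_eq, Real.sq_sqrt (Finset.sum_nonneg fun i _ => sq_nonneg _)]
  simp [gam]

theorem sc_smul {x y : E s} {α β : ℝ} (hα : 0 < α) (hβ : 0 < β) : sc (α • x) (β • y) = sc x y := by
  ext a
  simp only [sc, Set.mem_ofPred_eq, inner_smul_right]
  have h : α * ⟪a, x⟫_ℝ * (β * ⟪a, y⟫_ℝ) = (α * β) * (⟪a, x⟫_ℝ * ⟪a, y⟫_ℝ) := by ring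
  rw [h]
  constructor
  · intro h1
    by_contra h2
    have := mul_nonneg (mul_pos hα hβ).le (not_lt.1 h2)
    linarith
  · intro h1
    exact mul_neg_of_pos_of_neg (mul_pos hα hβ) h1

theorem dist_pv_le (f : Fin s → ℝ[X]) {t r : ℝ} (ht : t ∈ S f) (hr : r ∈ S f) :
    dist (pv f t) (pv f r) * volume.real (B s) ≤ 4 * Real.pi * m (sc (gam f t) (gam f r)) := by
  have hg : ∀ {t}, t ∈ S f → 0 < ‖gam f t‖ := fun h => norm_pos_iff.2 (gam_ne f h)
  set u := ‖gam f t‖⁻¹ • gam f t with hu
  set w := ‖gam f r‖⁻¹ • gam f r with hw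
  have hu1 : ‖u‖ = 1 := by
    rw [hu, norm_smul, norm_inv, norm_norm, inv_mul_cancel₀ (hg ht).ne']
  have hw1 : ‖w‖ = 1 := by
    rw [hw, norm_smul, norm_inv, norm_norm, inv_mul_cancel₀ (hg hr).ne']
  have e1 : ∀ i, pv f t i = u i ^ 2 := by
    intro i
    rw [hu]
    simp only [pv, PiLp.smul_apply, smul_eq_mul, mul_pow, inv_pow, norm_gam_sq]
    rw [div_eq_inv_mul]
    rfl
  have e2 : ∀ i, pv f r i = w i ^ 2 := by
    intro i
    rw [hw]
    simp only [pv, PiLp.smul_apply, smul_eq_mul, mul_pow, inv_pow, norm_gam_sq]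
    rw [div_eq_inv_mul]
    rfl
  have h1 : dist (pv f t) (pv f r) = ∑ i, |u i ^ 2 - w i ^ 2| := by
    rw [PiLp.dist_eq_sum (by norm_num)]
    simp only [ENNReal.toReal_one, Real.rpow_one, div_one]
    apply Finset.sum_congr rfl
    intro i _
    rw [e1, e2, Real.dist_eq]
  have h2 : sc (gam f t) (gam f r) = sc u w := by
    rw [hu, hw, sc_smul (inv_pos.2 (hg ht)) (inv_pos.2 (hg hr))]
  rw [h1, h2]
  exact (mul_le_mul_of_nonneg_right (sum_sq_sub_le hu1 hw1) volume_B_pos.le).trans (sc_lower hu1 hw1)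

/-- the variation of `pv` -/
theorem variation_le (f : Fin s → ℝ[X]) (hT : (supp f).Nonempty) :
    eVariationOn (pv f) (S f) ≤ ENNReal.ofReal (4 * Real.pi * (2 * (supp f).card - 1 : ℕ)) := by
  unfold eVariationOn
  apply iSup_le
  rintro ⟨n, u, hu, hus⟩
  simp only
  have h1 : ∑ k ∈ Finset.range n, dist (pv f (u (k + 1))) (pv f (u k)) ≤
      4 * Real.pi * (2 * (supp f).card - 1 : ℕ) := by
    have hB := volume_B_pos (s := s)
    rw [← mul_le_mul_iff_of_pos_right hB, Finset.sum_mul]
    calc ∑ k ∈ Finset.range n, dist (pv f (u (k + 1))) (pv f (u k)) * volume.real (B s)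
        ≤ ∑ k ∈ Finset.range n, 4 * Real.pi * m (sc (gam f (u k)) (gam f (u (k + 1)))) := by
          apply Finset.sum_le_sum
          intro k _
          rw [dist_comm]
          exact dist_pv_le f (hus k) (hus (k + 1))
      _ = 4 * Real.pi * ∑ k ∈ Finset.range n, m (sc (gam f (u k)) (gam f (u (k + 1)))) := by
          rw [Finset.mul_sum]
      _ ≤ 4 * Real.pi * ((2 * (supp f).card - 1 : ℕ) * volume.real (B s)) :=
          mul_le_mul_of_nonneg_left (sum_sc_le f hT hu n) (by positivity)
      _ = _ := by ring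
  have h2 : ∑ k ∈ Finset.range n, edist (pv f (u (k + 1))) (pv f (u k)) =
      ENNReal.ofReal (∑ k ∈ Finset.range n, dist (pv f (u (k + 1))) (pv f (u k))) := by
    rw [ENNReal.ofReal_sum_of_nonneg (fun k _ => dist_nonneg)]
    apply Finset.sum_congr rfl
    intro k _
    rw [edist_dist]
  rw [h2]
  exact ENNReal.ofReal_le_ofReal h1

end MP5180ba
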